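import Pool.Agent.Run7.h604.SY.Pow

/-!
# The symmetric and the exterior powers of a space with an operator: the definitions of the statement
-/

set_option autoImplicit false

namespace Pool.Agent.Run7.h604.SY

open Module TensorProduct Pool.Agent.Run7.h731.SE

universe u

section

variable (E A : Type u) [Field E] [AddCommGroup A] [Module E A]

/-- the symmetric algebra of `A` -/
def SymAlg : Type u := SymmetricAlgebra E A

noncomputable instance SymAlg.ring : CommRing (SymAlg E A) :=
  SymmetricAlgebra.instCommRing E A

noncomputable instance SymAlg.algebra : Algebra E (SymAlg E A) :=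
  (TensorAlgebra.symRingCon E A).instAlgebraQuotient

/-- the inclusion of `A` in its symmetric algebra -/
noncomputable def SymAlg.ι : A →ₗ[E] SymAlg E A := SymmetricAlgebra.ι E A

/-- linear maps on `A` are the same as homomorphisms of algebras on the symmetric algebra of `A` -/
noncomputable def SymAlg.equiv : (A →ₗ[E] SymAlg E A) ≃ (SymAlg E A →ₐ[E] SymAlg E A) :=
  SymmetricAlgebra.lift

/-- the `m`-th symmetric power of `A`: the part of degree `m` of the symmetric algebra -/
noncomputable def SymPart (m : ℕ) : Submodule E (SymAlg E A) := LinearMap.range (SymAlg.ι E A) ^ m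

/-- the `m`-th symmetric power of `A` -/
def SymSpace (m : ℕ) : Type u := SymPart E A m

noncomputable instance SymSpace.acg (m : ℕ) : AddCommGroup (SymSpace E A m) :=
  (SymPart E A m).addCommGroup

noncomputable instance SymSpace.mod (m : ℕ) : Module E (SymSpace E A m) := (SymPart E A m).module

/-- the `m`-th exterior power of `A` -/
def ExtSpace (m : ℕ) : Type u := ⋀[E]^m A

noncomputable instance ExtSpace.acg (m : ℕ) : AddCommGroup (ExtSpace E A m) :=
  (⋀[E]^m A).addCommGroup

noncomputable instance ExtSpace.mod (m : ℕ) : Module E (ExtSpace E A m) := (⋀[E]^m A).module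

end

variable {E A : Type u} [Field E] [AddCommGroup A] [Module E A]

/-- the homomorphism of algebras which is `f` on `A` -/
noncomputable def SymAlg.hom (f : A →ₗ[E] SymAlg E A) : SymAlg E A →ₐ[E] SymAlg E A :=
  (SymAlg.equiv E A).toFun f

/-- the endomorphism of the symmetric algebra of `A` which is multiplicative and is `F` on `A` -/
noncomputable def symAlgMap (F : Module.End E A) : Module.End E (SymAlg E A) :=
  (SymAlg.hom ((SymAlg.ι E A).comp F)).toLinearMap

theorem SymAlg.hom_ι (f : A →ₗ[E] SymAlg E A) (x : A) : SymAlg.hom f (SymAlg.ι E A x) = f x :=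
  SymmetricAlgebra.lift_ι_apply (A := SymAlg E A) f x

theorem symAlgMap_mem (F : Module.End E A) (m : ℕ) :
    ∀ x ∈ SymPart E A m, symAlgMap F x ∈ SymPart E A m := by
  intro x hx
  have h1 : (SymPart E A m).map (SymAlg.hom ((SymAlg.ι E A).comp F)).toLinearMap ≤
      SymPart E A m := by
    unfold SymPart
    rw [Submodule.map_pow]
    refine pow_le_pow_left' ?_ m
    rintro _ ⟨_, ⟨x, rfl⟩, rfl⟩
    exact ⟨F x, (SymAlg.hom_ι ((SymAlg.ι E A).comp F) x).symm⟩
  exact h1 ⟨x, hx, rfl⟩

/-- the operator on the symmetric power -/
noncomputable def symOp (F : Module.End E A) (m : ℕ) : Module.End E (SymSpace E A m) :=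
  (symAlgMap F).restrict (symAlgMap_mem F m)

/-- the operator on the exterior power -/
noncomputable def extOp (F : Module.End E A) (m : ℕ) : Module.End E (ExtSpace E A m) :=
  exteriorPower.map m F

theorem SymSpace.finite [FiniteDimensional E A] (m : ℕ) : FiniteDimensional E (SymSpace E A m) :=
  inferInstanceAs (FiniteDimensional E (SymPow E A m))

theorem ExtSpace.finite [FiniteDimensional E A] (m : ℕ) : FiniteDimensional E (ExtSpace E A m) :=
  inferInstanceAs (FiniteDimensional E (⋀[E]^m A))

theorem SymAlg.hom_comp (F G : Module.End E A) (x : SymAlg E A) :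
    symAlgMap G (symAlgMap F x) = symAlgMap (G * F) x := by
  have h : (SymAlg.hom ((SymAlg.ι E A).comp G)).comp (SymAlg.hom ((SymAlg.ι E A).comp F)) =
      SymAlg.hom ((SymAlg.ι E A).comp (G * F)) := by
    refine SymmetricAlgebra.algHom_ext (A := SymAlg E A) (LinearMap.ext fun x => ?_)
    change SymAlg.hom _ (SymAlg.hom _ (SymAlg.ι E A x)) = SymAlg.hom _ (SymAlg.ι E A x)
    rw [SymAlg.hom_ι, SymAlg.hom_ι]
    exact SymAlg.hom_ι _ _
  exact congrArg (fun f => f x) h

theorem SymAlg.hom_one (x : SymAlg E A) : symAlgMap (1 : Module.End E A) x = x := by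
  have h : SymAlg.hom ((SymAlg.ι E A).comp (1 : Module.End E A)) = AlgHom.id E (SymAlg E A) := by
    refine SymmetricAlgebra.algHom_ext (A := SymAlg E A) (LinearMap.ext fun x => ?_)
    change SymAlg.hom _ (SymAlg.ι E A x) = SymAlg.ι E A x
    rw [SymAlg.hom_ι]
    rfl
  exact congrArg (fun f => f x) h

theorem symOp_bijective [FiniteDimensional E A] {F : Module.End E A} (hF : Function.Bijective F)
    (m : ℕ) : Function.Bijective (symOp F m) := by
  have h : Function.Injective (symOp F m) := by
    intro x y hxy
    apply Subtype.ext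
    set G : Module.End E A := (LinearEquiv.ofBijective F hF).symm.toLinearMap with hG
    have hGF : G * F = 1 := by
      ext x
      exact (LinearEquiv.ofBijective F hF).symm_apply_apply x
    have h1 : symAlgMap F x.1 = symAlgMap F y.1 := congrArg Subtype.val hxy
    have h2 := congrArg (symAlgMap G) h1
    rw [SymAlg.hom_comp, SymAlg.hom_comp, hGF, SymAlg.hom_one, SymAlg.hom_one] at h2
    exact h2
  have := SymSpace.finite (E := E) (A := A) m
  exact ⟨h, LinearMap.injective_iff_surjective.1 h⟩

theorem extOp_bijective [FiniteDimensional E A] {F : Module.End E A} (hF : Function.Bijective F)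
    (m : ℕ) : Function.Bijective (extOp F m) := by
  have h : Function.Injective (extOp F m) := exteriorPower.map_injective_field hF.1
  have := ExtSpace.finite (E := E) (A := A) m
  exact ⟨h, LinearMap.injective_iff_surjective.1 h⟩

/-- the `m`-th symmetric power of `(A, F)` -/
noncomputable def Sym (B : FSpace.{u, u} E) (m : ℕ) : FSpace.{u, u} E where
  X := SymSpace E B.X m
  fin := SymSpace.finite m
  F := symOp B.F m
  bij := symOp_bijective B.bij m

/-- the `m`-th exterior power of `(A, F)` -/
noncomputable def Ext (B : FSpace.{u, u} E) (m : ℕ) : FSpace.{u, u} E where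
  X := ExtSpace E B.X m
  fin := ExtSpace.finite m
  F := extOp B.F m
  bij := extOp_bijective B.bij m

end Pool.Agent.Run7.h604.SY
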