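import Pool.Agent.Run7.h604.SY.Ev

/-!
# The number and the size of the Jordan blocks
-/

set_option autoImplicit false

namespace Pool.Agent.Run7.h604.SY

open Module TensorProduct Pool.Agent.Run7.h731.SE

universe u

variable {E : Type u} [Field E]

section Lin

variable {A : Type*} [AddCommGroup A] [Module E A] [FiniteDimensional E A]

theorem kd_succ_le (F : Module.End E A) (ν : E) (k : ℕ) : kd F ν (k + 1) ≤ kd F ν k + kd F ν 1 := by
  unfold kd
  set N := F - ν • (1 : Module.End E A) with hN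
  have hm : ∀ x ∈ LinearMap.ker (N ^ (k + 1)), (N ^ k) x ∈ LinearMap.ker (N ^ 1) := by
    intro x hx
    rw [LinearMap.mem_ker] at hx ⊢
    rw [pow_one, ← Module.End.mul_apply, ← pow_succ', hx]
  set f := (N ^ k).restrict hm with hf
  rw [← LinearMap.finrank_range_add_finrank_ker f, add_comm]
  refine add_le_add ?_ (Submodule.finrank_le _)
  have h4 : finrank E ((LinearMap.ker f).map (LinearMap.ker (N ^ (k + 1))).subtype) =
      finrank E (LinearMap.ker f) :=
    (Submodule.equivMapOfInjective _ (Submodule.subtype_injective _) _).finrank_eq.symm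
  rw [← h4]
  refine Submodule.finrank_mono ?_
  rintro _ ⟨x, hx, rfl⟩
  have := congrArg Subtype.val (LinearMap.mem_ker.1 hx)
  exact LinearMap.mem_ker.2 this

theorem kd_le_mul (F : Module.End E A) (ν : E) (k : ℕ) : kd F ν k ≤ k * kd F ν 1 := by
  induction k with
  | zero => rw [kd_zero]; exact Nat.zero_le _
  | succ k ih =>
    refine (kd_succ_le F ν k).trans ?_
    rw [Nat.add_mul, Nat.one_mul]
    exact Nat.add_le_add_right ih _

theorem sum_finrank_le {ι : Type*} {p : ι → Submodule E A} (hp : iSupIndep p) (s : Finset ι) :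
    ∑ i ∈ s, finrank E (p i) ≤ finrank E (⨆ i ∈ s, p i : Submodule E A) := by
  classical
  induction s using Finset.induction_on with
  | empty => simp
  | insert a s ha ih =>
    rw [Finset.sum_insert ha, Finset.iSup_insert]
    have h1 : Disjoint (p a) (⨆ i ∈ s, p i) := by
      refine (hp a).mono_right (iSup₂_le fun i hi => ?_)
      refine le_iSup₂_of_le (f := fun i (_ : i ≠ a) => p i) i ?_ le_rfl
      rintro rfl
      exact ha hi
    have h2 := Submodule.finrank_sup_add_finrank_inf_eq (p a) (⨆ i ∈ s, p i)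
    rw [disjoint_iff.1 h1, finrank_bot, add_zero] at h2
    rw [h2]
    exact Nat.add_le_add_left ih _

end Lin

theorem dim_le_of_blocks [IsAlgClosed E] (A : FSpace.{u, u} E) {k : ℕ} (h : A.BlocksLe k) :
    A.dim ≤ k * A.eigen := by
  obtain ⟨s, hs⟩ := exists_units A.F A.bij.1
  have h1 : (⊤ : Submodule E A.X) ≤ ⨆ ν : E, A.F.genEigenspace ν k := by
    rw [← Module.End.iSup_maxGenEigenspace_eq_top A.F]
    exact iSup_mono fun ν => h ν
  have h2 : A.dim ≤ ∑ ν ∈ s, kd A.F (ν : E) k := by
    refine le_trans ?_ (hs k)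
    have h3 := Submodule.finrank_mono h1
    rwa [finrank_top] at h3
  have h3 : ∑ ν ∈ s, kd A.F (ν : E) 1 ≤ A.eigen := by
    have h4 : iSupIndep (fun ν : Eˣ => A.F.eigenspace (ν : E)) :=
      (Module.End.eigenspaces_iSupIndep A.F).comp Units.val_injective
    refine le_trans (le_of_eq ?_) ((sum_finrank_le h4 s).trans (Submodule.finrank_mono ?_))
    · exact Finset.sum_congr rfl fun ν _ => kd_one _ _
    · exact iSup₂_le fun ν _ => le_iSup (fun ν : E => A.F.eigenspace ν) (ν : E)
  calc A.dim ≤ ∑ ν ∈ s, kd A.F (ν : E) k := h2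
    _ ≤ ∑ ν ∈ s, k * kd A.F (ν : E) 1 := Finset.sum_le_sum fun ν _ => kd_le_mul _ _ _
    _ = k * ∑ ν ∈ s, kd A.F (ν : E) 1 := (Finset.mul_sum _ _ _).symm
    _ ≤ k * A.eigen := Nat.mul_le_mul_left _ h3

theorem blocksLe_one {A : FSpace.{u, u} E} (h : A.Semisimple) : A.BlocksLe 1 := fun ν =>
  le_of_eq (maxGen_eq_of_semisimple h ν)

theorem semisimple_of_dim {A : FSpace.{u, u} E} (h : A.dim = 0) : A.Semisimple := by
  have h1 : Subsingleton A.X := Module.finrank_zero_iff.1 h
  change ss A.F = ⊤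
  exact Subsingleton.elim _ _

theorem blocksLe_of_dim {A : FSpace.{u, u} E} (h : A.dim = 0) (k : ℕ) : A.BlocksLe k := by
  have h1 : Subsingleton A.X := Module.finrank_zero_iff.1 h
  intro ν x _
  rw [Subsingleton.elim x 0]
  exact Submodule.zero_mem _

theorem eigen_of_semisimple {A : FSpace.{u, u} E} (h : A.Semisimple) : A.eigen = A.dim := by
  have h1 : ss A.F = ⊤ := h
  change finrank E (ss A.F) = finrank E A.X
  rw [h1, finrank_top]

theorem two_le_dim [IsAlgClosed E] {A : FSpace.{u, u} E} (h : ¬ A.Semisimple) : 2 ≤ A.dim := by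
  by_contra hcon
  obtain ⟨μ, w, hv, hv0⟩ := exists_jordan A.F h
  obtain ⟨x, hx⟩ := (finrank_le_one_iff (K := E) (V := A.X)).1 (by unfold FSpace.dim at hcon; omega)
  obtain ⟨c, hc⟩ := hx w
  obtain ⟨d, hd⟩ := hx (A.F w - μ • w)
  have hd0 : d ≠ 0 := by
    rintro rfl
    rw [zero_smul] at hd
    exact hv0 hd.symm
  have h1 : A.F x = μ • x := by
    rw [← hd, map_smul, smul_comm μ d] at hv
    exact smul_right_injective _ hd0 hv
  apply hv0
  rw [← hc, map_smul, h1, smul_comm, sub_self]

theorem symPow_dim (A : FSpace.{u, u} E) (m : ℕ) : (symPow A m).dim = finrank E (SymPow E A.X m) := rfl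

theorem extPow_dim (A : FSpace.{u, u} E) (m : ℕ) : (extPow A m).dim = A.dim.choose m :=
  exteriorPower.finrank_eq E m

theorem eigen_le_dim (A : FSpace.{u, u} E) : A.eigen ≤ A.dim := Submodule.finrank_le _

/-- the proportion of the eigenvectors in the symmetric powers -/
theorem share_symPow [IsAlgClosed E] [CharZero E] {A : FSpace.{u, u} E} (h : ¬ A.Semisimple) (m : ℕ) :
    (m + (A.dim - 1)) * (symPow A m).eigen ≤ (A.dim - 1) * (symPow A m).dim := by
  have hb := two_le_dim h
  cases m with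
  | zero =>
    rw [zero_add]
    exact Nat.mul_le_mul_left _ (eigen_le_dim _)
  | succ m =>
    have h1 := eigen_symPow A h m
    have h2 : (A.dim + m) * (symPow A m).dim = (m + 1) * (symPow A (m + 1)).dim :=
      symPow_succ (E := E) (A := A.X) m
    obtain ⟨c, hc⟩ : ∃ c, A.dim = c + 1 := ⟨A.dim - 1, by omega⟩
    rw [hc] at h2 ⊢
    rw [Nat.add_sub_cancel]
    have h3 := Nat.mul_le_mul_left (c + 1 + m) h1
    nlinarith [h2, h3]

end Pool.Agent.Run7.h604.SY
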