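import Pool.Agent.Run7.h604.SY.Alg

/-!
# The cohomology of projective varieties over a finite field, with symmetric products
-/

set_option autoImplicit false

namespace Pool.Agent.Run7.h604.SY

open Module TensorProduct Pool.Agent.Run7.h731.SE

universe u v

/-- the sum of the `H r`, `r = 0, …, 2 d` -/
noncomputable def total {E : Type u} [Field E] (H : ℕ → FSpace.{u, u} E) (d : ℕ) : FSpace.{u, u} E :=
  FSpace.pi fun r : Fin (2 * d + 1) => H r

/-- the sum of the `H (2 i)`, `i = 0, …, d` -/
noncomputable def even {E : Type u} [Field E] (H : ℕ → FSpace.{u, u} E) (d : ℕ) : FSpace.{u, u} E :=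
  FSpace.pi fun i : Fin (d + 1) => H (2 * i)

/-- the sum of the `H (2 i + 1)`, `i = 0, …, d - 1` -/
noncomputable def odd {E : Type u} [Field E] (H : ℕ → FSpace.{u, u} E) (d : ℕ) : FSpace.{u, u} E :=
  FSpace.pi fun i : Fin d => H (2 * i + 1)

/-- The `ℓ`-adic cohomology, with coefficients in a field `E` (an algebraic closure of `ℚ_ℓ`), of a class of
projective varieties, possibly singular, over a finite field which is closed under products and symmetric
products: `H V r` is `H ^ r (V̄, ℚ_ℓ) ⊗ E` with the Frobenius. -/
structure ProjCohomology (E : Type u) [Field E] where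
  /-- the projective varieties of the class -/
  Var : Type v
  /-- the dimension -/
  dim : Var → ℕ
  /-- the cohomology groups with their Frobenius -/
  H : Var → ℕ → FSpace.{u, u} E
  /-- the cohomology vanishes above the degree `2 dim V` -/
  vanishing : ∀ V r, 2 * dim V < r → (H V r).dim = 0
  /-- the product of two varieties -/
  prod : Var → Var → Var
  /-- the Künneth formula: `H ^ r (V × W)` is the direct sum of the `H ^ i (V) ⊗ H ^ (r - i) (W)` -/
  kunneth : ∀ V W r, (H (prod V W) r).Isom
    (FSpace.pi fun i : Fin (r + 1) => (H V i).tensor (H W (r - i)))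
  /-- the symmetric product `V ^ n / S_n` -/
  sym : Var → ℕ → Var
  dim_sym : ∀ V n, dim (sym V n) = n * dim V
  /-- Macdonald's formula: the cohomology of the `n`-th symmetric product of `V` is the direct sum of the
  `Sym ^ (n - j) (H ^ even (V)) ⊗ Λ ^ j (H ^ odd (V))` -/
  macdonald : ∀ V n, (total (H (sym V n)) (dim (sym V n))).Isom
    (FSpace.pi fun j : Fin (n + 1) =>
      (Sym (even (H V) (dim V)) (n - j)).tensor (Ext (odd (H V) (dim V)) j))

namespace ProjCohomology

variable {E : Type u} [Field E] (C : ProjCohomology.{u, v} E)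

/-- the sum of the Betti numbers of `V` -/
noncomputable def betti (V : C.Var) : ℕ := (total (C.H V) (C.dim V)).dim

/-- the dimension of the subspace of the cohomology of `V` (all degrees) which is spanned by the
eigenvectors of the Frobenius; it is also the number of its Jordan blocks -/
noncomputable def eigenDim (V : C.Var) : ℕ := (total (C.H V) (C.dim V)).eigen

/-- the sum of the Betti numbers of `V` of even degree -/
noncomputable def evenBetti (V : C.Var) : ℕ := (even (C.H V) (C.dim V)).dim

/-- the sum of the Betti numbers of `V` of odd degree -/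
noncomputable def oddBetti (V : C.Var) : ℕ := (odd (C.H V) (C.dim V)).dim

/-- the conclusions for the symmetric products of a variety whose Frobenius is not semisimple on the cohomology
of even degree -/
structure Few (V : C.Var) : Prop where
  two_le : 2 ≤ C.evenBetti V
  /-- the eigenvectors span at most the proportion `(b - 1) / (k + b - 1)` of the cohomology of the symmetric product
  of order `b' + k`, where `b` and `b'` are the sums of the even and of the odd Betti numbers of `V` -/
  share : ∀ k : ℕ, (C.eigenDim (C.sym V (C.oddBetti V + k)) : ℝ) ≤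
    ((C.evenBetti V : ℝ) - 1) / (k + C.evenBetti V - 1) * C.betti (C.sym V (C.oddBetti V + k))
  /-- the sum of the Betti numbers of the symmetric products grows like a polynomial -/
  betti_pos : ∀ n : ℕ, 1 ≤ C.betti (C.sym V n)
  betti_le : ∀ n : ℕ, C.betti (C.sym V n) ≤
    2 ^ C.oddBetti V * (n + C.evenBetti V) ^ (C.evenBetti V - 1)

/-- the Frobenius is semisimple in each degree for each variety of the class -/
def AllSemisimple : Prop := ∀ (V : C.Var) (r : ℕ), (C.H V r).Semisimple

/-- The average size of the Jordan blocks on the cohomology of `V` is at most `b ^ o(1)`, where `b` is the sum of the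
Betti numbers: for each `ε > 0` there are at least `κ b ^ (1 - ε)` blocks, `κ > 0`. -/
def AverageSmall : Prop := ∀ ε : ℝ, 0 < ε → ε < 1 → ∃ κ : ℝ, 0 < κ ∧
  ∀ V : C.Var, κ * (C.betti V : ℝ) ^ (1 - ε) ≤ C.eigenDim V

/-- All Jordan blocks on the cohomology of `V` have size at most `b ^ o(1)`, where `b` is the sum of the Betti
numbers: for each `ε > 0` they have size at most `K b ^ ε`. -/
def BlocksSmall : Prop := ∀ ε : ℝ, 0 < ε → ∃ K : ℝ, ∀ V : C.Var, ∃ k : ℕ,
  (k : ℝ) ≤ K * (C.betti V : ℝ) ^ ε ∧ ∀ r, (C.H V r).BlocksLe k

/-- the eigenvectors span at least the proportion `φ (dim V)` of the cohomology of `V`, where `φ > 0` is a function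
with `d φ (d) → ∞` -/
def ShareLarge : Prop := ∃ φ : ℕ → ℝ, (∀ d, 0 < φ d) ∧ ToInfinity (fun d => d * φ d) ∧
  ∀ V : C.Var, φ (C.dim V) * C.betti V ≤ C.eigenDim V

end ProjCohomology

end Pool.Agent.Run7.h604.SY
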