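import Pool.Agent.Run7.h604.SY.Pow

/-!
# The dimension of the symmetric powers
-/

set_option autoImplicit false

namespace Pool.Agent.Run7.h604.SY

open Module TensorProduct Pool.Agent.Run7.h731.SE

universe u

variable {E : Type u} [Field E]

theorem finrank_homogeneous (n m : ℕ) :
    finrank E (MvPolynomial.homogeneousSubmodule (Fin n) E m) = (n + m - 1).choose m := by
  classical
  have h1 : MvPolynomial.homogeneousSubmodule (Fin n) E m = Submodule.span E (Set.range
      fun d : {d // d ∈ (Finset.univ : Finset (Fin n)).finsuppAntidiag m} =>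
        MvPolynomial.monomial d.1 (1 : E)) := by
    rw [MvPolynomial.homogeneousSubmodule_eq_finsupp_supported,
      AddMonoidAlgebra.supported_eq_span_single]
    congr 1
    ext p
    simp only [Set.mem_image, Set.mem_ofPred_eq, Set.mem_range, Subtype.exists,
      Finset.mem_finsuppAntidiag, Finset.subset_univ, and_true, MvPolynomial.single_eq_monomial]
    constructor
    · rintro ⟨d, hd, rfl⟩
      exact ⟨d, by rw [← hd, Finsupp.degree_eq_sum], rfl⟩
    · rintro ⟨d, hd, rfl⟩
      exact ⟨d, by rw [← hd, Finsupp.degree_eq_sum], rfl⟩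
  rw [h1, finrank_span_eq_card]
  · rw [Fintype.card_coe, Finset.card_finsuppAntidiag_nat_eq_choose, Finset.card_univ,
      Fintype.card_fin]
  · have h2 := (MvPolynomial.basisMonomials (Fin n) E).linearIndependent
    rw [MvPolynomial.coe_basisMonomials] at h2
    exact h2.comp (fun d : {d // d ∈ (Finset.univ : Finset (Fin n)).finsuppAntidiag m} => d.1)
      Subtype.val_injective

variable {A : Type u} [AddCommGroup A] [Module E A] [FiniteDimensional E A]

theorem finrank_symPow (m : ℕ) :
    finrank E (SymPow E A m) = (finrank E A + m - 1).choose m := by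
  set b := finBasis E A with hb
  set e := SymmetricAlgebra.equivMvPolynomial b with he
  have h1 : (LinearMap.range (SymmetricAlgebra.ι E A)).map (e : SymmetricAlgebra E A →ₐ[E]
      MvPolynomial (Fin (finrank E A)) E).toLinearMap =
      MvPolynomial.homogeneousSubmodule (Fin (finrank E A)) E 1 := by
    rw [MvPolynomial.homogeneousSubmodule_one_eq_span_X, LinearMap.range_eq_map, ← b.span_eq,
      Submodule.map_span, Submodule.map_span]
    congr 1
    ext p
    simp only [Set.mem_image, Set.mem_range, exists_exists_eq_and]
    constructor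
    · rintro ⟨i, rfl⟩
      exact ⟨i, (SymmetricAlgebra.equivMvPolynomial_ι_apply b i).symm⟩
    · rintro ⟨i, rfl⟩
      exact ⟨i, SymmetricAlgebra.equivMvPolynomial_ι_apply b i⟩
  have h2 : (SymPow E A m).map (e : SymmetricAlgebra E A →ₐ[E]
      MvPolynomial (Fin (finrank E A)) E).toLinearMap =
      MvPolynomial.homogeneousSubmodule (Fin (finrank E A)) E m := by
    unfold SymPow
    rw [Submodule.map_pow, h1, MvPolynomial.homogeneousSubmodule_one_pow]
  rw [← finrank_homogeneous (E := E), ← h2]
  exact (Submodule.equivMapOfInjective _ e.injective _).finrank_eq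

/-- the ratio of the dimensions of two consecutive symmetric powers -/
theorem symPow_succ (m : ℕ) : (finrank E A + m) * finrank E (SymPow E A m) =
    (m + 1) * finrank E (SymPow E A (m + 1)) := by
  rw [finrank_symPow, finrank_symPow]
  rcases Nat.eq_zero_or_pos (finrank E A) with h | h
  · rw [h]
    cases m with
    | zero => simp
    | succ m =>
      rw [Nat.choose_eq_zero_of_lt (by omega), Nat.choose_eq_zero_of_lt (by omega)]
      simp
  · have h1 : finrank E A + (m + 1) - 1 = finrank E A + m := by omega
    rw [h1]
    obtain ⟨c, hc⟩ : ∃ c, finrank E A + m = c + 1 := ⟨finrank E A + m - 1, by omega⟩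
    rw [hc, Nat.add_sub_cancel, Nat.add_one_mul_choose_eq c m, mul_comm]

theorem symPow_pos (h : 0 < finrank E A) (m : ℕ) : 0 < finrank E (SymPow E A m) := by
  rw [finrank_symPow]
  exact Nat.choose_pos (by omega)

theorem symPow_le (m n : ℕ) (hmn : m ≤ n) (h : 0 < finrank E A) :
    finrank E (SymPow E A m) ≤ (n + finrank E A) ^ (finrank E A - 1) := by
  rw [finrank_symPow, Nat.choose_symm_of_eq_add (n := finrank E A + m - 1) (a := m)
    (b := finrank E A - 1) (by omega)]
  refine (Nat.choose_le_pow _ _).trans ?_
  exact Nat.pow_le_pow_left (by omega) _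

end Pool.Agent.Run7.h604.SY
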