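import Pool.Agent.Run7.h604.SY.Sym
import Pool.Agent.Run7.h731.SE.Block

/-!
# The span of the eigenvectors in extensions, tensor products and direct sums
-/

set_option autoImplicit false

namespace Pool.Agent.Run7.h604.SY

open Module TensorProduct Pool.Agent.Run7.h731.SE

universe u

variable {E : Type u} [Field E]

section Exact

variable {A B C : Type*} [AddCommGroup A] [Module E A] [AddCommGroup B] [Module E B] [AddCommGroup C]
  [Module E C]

theorem ss_exact [FiniteDimensional E A] [FiniteDimensional E B] [FiniteDimensional E C]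
    {S : Module.End E A} {T : Module.End E B} {U : Module.End E C} {i : A →ₗ[E] B} {π : B →ₗ[E] C}
    (hi : Function.Injective i) (hex : ∀ y, π y = 0 → ∃ x, i x = y) (h1 : ∀ x, i (S x) = T (i x))
    (h2 : ∀ y, π (T y) = U (π y)) :
    finrank E (ss T) ≤ finrank E (ss S) + finrank E (ss U) := by
  set f : ss T →ₗ[E] ss U := π.restrict (fun x hx => ss_map h2 hx) with hf
  rw [← LinearMap.finrank_range_add_finrank_ker f, add_comm]
  refine add_le_add ?_ (Submodule.finrank_le _)
  have h3 : (LinearMap.ker f).map (ss T).subtype ≤ (ss S).map i := by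
    have h4 : LinearMap.ker π ⊓ ss T ≤ (ss S).map i := by
      unfold ss
      have h5 := Submodule.inf_iSup_genEigenspace (p := LinearMap.ker π) (f := T) (fun x hx => by
        rw [LinearMap.mem_ker] at hx ⊢
        rw [h2, hx, map_zero]) 1
      refine (le_of_eq h5).trans ?_
      rw [Submodule.map_iSup]
      refine iSup_mono fun ν => ?_
      rintro y ⟨hy1, hy2⟩
      obtain ⟨x, rfl⟩ := hex y hy1
      refine ⟨x, ?_, rfl⟩
      have h6 : T (i x) = ν • i x := Module.End.mem_eigenspace_iff.1 hy2
      refine Module.End.mem_eigenspace_iff.2 (hi ?_)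
      rw [h1, h6, map_smul]
    rintro _ ⟨x, hx, rfl⟩
    refine h4 ⟨?_, x.2⟩
    have := congrArg Subtype.val (LinearMap.mem_ker.1 hx)
    exact this
  have h4 : finrank E ((LinearMap.ker f).map (ss T).subtype) = finrank E (LinearMap.ker f) :=
    (Submodule.equivMapOfInjective (ss T).subtype (Submodule.subtype_injective _) _).finrank_eq.symm
  rw [← h4]
  exact (Submodule.finrank_mono h3).trans (Submodule.finrank_map_le i _)

theorem ss_smul {μ : E} (hμ : μ ≠ 0) (T : Module.End E A) : ss (μ • T) = ss T := by
  refine le_antisymm (iSup_le fun ν x hx => ?_) (iSup_le fun ν x hx => ?_)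
  · refine (le_iSup (fun ν => T.eigenspace ν) (μ⁻¹ * ν)) (Module.End.mem_eigenspace_iff.2 ?_)
    have h := Module.End.mem_eigenspace_iff.1 hx
    rw [LinearMap.smul_apply] at h
    rw [mul_smul, ← h, inv_smul_smul₀ hμ]
  · refine (le_iSup (fun ν => (μ • T).eigenspace ν) (μ * ν)) (Module.End.mem_eigenspace_iff.2 ?_)
    rw [LinearMap.smul_apply, Module.End.mem_eigenspace_iff.1 hx, mul_smul]

end Exact

theorem ss_tensor_le [IsAlgClosed E] {A : Type u} [AddCommGroup A] [Module E A]
    [FiniteDimensional E A] (T : Module.End E A) (n : ℕ) : ∀ (B : Type u) [AddCommGroup B] [Module E B]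
    [FiniteDimensional E B] (U : Module.End E B), Function.Bijective U → finrank E B = n →
    finrank E (ss (TensorProduct.map T U)) ≤ finrank E (ss T) * n := by
  induction n with
  | zero =>
    intro B _ _ _ U _ hB
    refine (Submodule.finrank_le _).trans (le_of_eq ?_)
    rw [finrank_tensorProduct, hB, mul_zero, mul_zero]
  | succ n ih =>
    intro B _ _ _ U hU hB
    have : Nontrivial B := Module.nontrivial_of_finrank_pos (R := E) (by omega)
    obtain ⟨μ, hμ⟩ := Module.End.exists_eigenvalue U
    obtain ⟨w, hw⟩ := hμ.exists_hasEigenvector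
    have hw1 : U w = μ • w := hw.apply_eq_smul
    have hw0 : w ≠ 0 := hw.2
    have hμ0 : μ ≠ 0 := by
      rintro rfl
      rw [zero_smul] at hw1
      exact hw0 (hU.1 (by rw [hw1, map_zero]))
    set L : Submodule E B := Submodule.span E {w} with hL
    have hLU : L ≤ L.comap U := by
      rw [hL, Submodule.span_le, Set.singleton_subset_iff]
      change U w ∈ Submodule.span E {w}
      rw [hw1]
      exact Submodule.smul_mem _ _ (Submodule.mem_span_singleton_self w)
    set U' : Module.End E (B ⧸ L) := L.mapQ L U hLU with hU'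
    have hU'surj : Function.Surjective U' := by
      intro y
      obtain ⟨y, rfl⟩ := L.mkQ_surjective y
      obtain ⟨x, rfl⟩ := hU.2 y
      exact ⟨L.mkQ x, rfl⟩
    have hU'bij : Function.Bijective U' := ⟨LinearMap.injective_iff_surjective.2 hU'surj, hU'surj⟩
    have hdim : finrank E (B ⧸ L) = n := by
      have h1 := Submodule.finrank_quotient_add_finrank L
      have h0 : finrank E L = 1 := finrank_span_singleton hw0
      rw [h0, hB] at h1
      omega
    have h1 := ih (B ⧸ L) U' hU'bij hdim
    set i : A →ₗ[E] A ⊗[E] B := (TensorProduct.mk E A B).flip w with hi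
    have hinj : Function.Injective i := by
      have h2 : Function.Injective (LinearMap.toSpanSingleton E B w) := by
        rw [← LinearMap.ker_eq_bot]
        exact LinearMap.ker_toSpanSingleton E hw0
      have h3 := Module.Flat.lTensor_preserves_injective_linearMap (M := A) _ h2
      intro x y hxy
      have h4 : LinearMap.lTensor A (LinearMap.toSpanSingleton E B w) (x ⊗ₜ[E] (1 : E)) =
          LinearMap.lTensor A (LinearMap.toSpanSingleton E B w) (y ⊗ₜ[E] (1 : E)) := by
        simp only [LinearMap.lTensor_tmul, LinearMap.toSpanSingleton_apply, one_smul]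
        exact hxy
      have h5 := congrArg (TensorProduct.rid E A) (h3 h4)
      simpa using h5
    have hex : ∀ y, LinearMap.lTensor A L.mkQ y = 0 → ∃ x, i x = y := by
      intro y hy
      have h2 : Function.Exact L.subtype L.mkQ := LinearMap.exact_subtype_mkQ L
      obtain ⟨z, rfl⟩ := (lTensor_exact A h2 L.mkQ_surjective y).1 hy
      have h3 : ∀ z : A ⊗[E] L, LinearMap.lTensor A L.subtype z ∈ LinearMap.range i := by
        intro z
        induction z using TensorProduct.induction_on with
        | zero => rw [map_zero]; exact Submodule.zero_mem _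
        | tmul a b =>
          obtain ⟨c, hc⟩ := Submodule.mem_span_singleton.1 b.2
          refine ⟨c • a, ?_⟩
          rw [LinearMap.lTensor_tmul, Submodule.subtype_apply, ← hc, TensorProduct.tmul_smul]
          rw [map_smul]
          rfl
        | add a b ha hb => rw [map_add]; exact Submodule.add_mem _ ha hb
      exact h3 z
    have h2 := ss_exact (S := μ • T) (T := TensorProduct.map T U) (U := TensorProduct.map T U')
      (i := i) (π := LinearMap.lTensor A L.mkQ) hinj hex (fun x => by
        change (μ • T) x ⊗ₜ[E] w = TensorProduct.map T U (x ⊗ₜ[E] w)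
        rw [TensorProduct.map_tmul, hw1, LinearMap.smul_apply, TensorProduct.smul_tmul])
      (fun y => map_comm (f := L.mkQ) (FB := U) (FA := U') (fun x => rfl) T y)
    rw [ss_smul hμ0] at h2
    calc finrank E (ss (TensorProduct.map T U)) ≤ finrank E (ss T) + finrank E (ss T) * n :=
        h2.trans (Nat.add_le_add_left h1 _)
      _ = finrank E (ss T) * (n + 1) := by ring

/-- the eigenvectors in a tensor product -/
theorem eigen_tensor_le [IsAlgClosed E] (A B : FSpace.{u, u} E) :
    (A.tensor B).eigen ≤ A.eigen * B.dim :=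
  ss_tensor_le A.F B.dim B.X B.F B.bij rfl

theorem dim_tensor (A B : FSpace.{u, u} E) : (A.tensor B).dim = A.dim * B.dim := by
  change finrank E (A.X ⊗[E] B.X) = _
  exact finrank_tensorProduct

section Pi

variable {n : ℕ} (A : Fin n → FSpace.{u, u} E)

/-- the projections -/
def proj (i : Fin n) : (FSpace.pi A).X →ₗ[E] (A i).X := LinearMap.proj i

theorem proj_comm (i : Fin n) (x : (FSpace.pi A).X) : proj A i ((FSpace.pi A).F x) = (A i).F (proj A i x) :=
  rfl

/-- the inclusions -/
def incl (i : Fin n) : (A i).X →ₗ[E] (FSpace.pi A).X := LinearMap.single E (fun i => (A i).X) i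

theorem proj_incl (i : Fin n) (x : (A i).X) : proj A i (incl A i x) = x := by
  change (Pi.single i x : ∀ i, (A i).X) i = x
  simp

theorem incl_comm (i : Fin n) (x : (A i).X) : incl A i ((A i).F x) = (FSpace.pi A).F (incl A i x) := by
  funext j
  change (Pi.single i ((A i).F x) : ∀ i, (A i).X) j = (A j).F ((Pi.single i x : ∀ i, (A i).X) j)
  by_cases hj : j = i
  · subst hj
    simp
  · simp [Pi.single_eq_of_ne hj]

theorem dim_pi : (FSpace.pi A).dim = ∑ i, (A i).dim :=
  Module.finrank_pi_fintype E

theorem eigen_pi_le : (FSpace.pi A).eigen ≤ ∑ i, (A i).eigen := by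
  have h1 : ∀ (i : Fin n) (x : ss (FSpace.pi A).F), (proj A i).comp (Submodule.subtype _) x ∈
      ss (A i).F := fun i x => ss_map (proj_comm A i) x.2
  have h2 : finrank E (∀ i, ss (A i).F) = ∑ i, (A i).eigen := Module.finrank_pi_fintype E
  rw [← h2]
  refine LinearMap.finrank_le_finrank_of_injective (f := (LinearMap.pi fun i =>
    LinearMap.codRestrict _ ((proj A i).comp (Submodule.subtype _)) (h1 i) :
      ss (FSpace.pi A).F →ₗ[E] ∀ i, ss (A i).F)) ?_
  intro x y hxy
  apply Subtype.ext
  funext i
  exact congrArg Subtype.val (congrFun hxy i)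

theorem semisimple_pi : (FSpace.pi A).Semisimple ↔ ∀ i, (A i).Semisimple := by
  constructor
  · intro h i
    change ss (A i).F = ⊤
    rw [eq_top_iff]
    rintro x -
    have h1 : incl A i x ∈ ss (FSpace.pi A).F := by
      have h2 : ss (FSpace.pi A).F = ⊤ := h
      rw [h2]
      trivial
    have h2 := ss_map (proj_comm A i) h1
    rwa [proj_incl] at h2
  · intro h
    change ss (FSpace.pi A).F = ⊤
    rw [eq_top_iff]
    rintro x -
    have h1 : ∀ i, incl A i (proj A i x) ∈ ss (FSpace.pi A).F := by
      intro i
      refine ss_map (incl_comm A i) ?_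
      have h2 : ss (A i).F = ⊤ := h i
      rw [h2]
      trivial
    have h3 : x = ∑ i, incl A i (proj A i x) := (Finset.univ_sum_single (M := fun i => (A i).X) x).symm
    rw [h3]
    exact Submodule.sum_mem _ fun i _ => h1 i

theorem blocksLe_pi {k : ℕ} (h : ∀ i, (A i).BlocksLe k) : (FSpace.pi A).BlocksLe k := by
  intro ν x hx
  rw [Module.End.genEigenspace_nat, LinearMap.mem_ker]
  funext i
  have h1 := gen_map (proj_comm A i) hx
  have h2 := h i ν h1
  rw [Module.End.genEigenspace_nat, LinearMap.mem_ker] at h2
  have h3 := pow_comm (proj_comm A i) ν k x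
  exact h3.trans h2

end Pi

section Isom

variable {A B : FSpace.{u, u} E}

theorem isom_dim (h : A.Isom B) : A.dim = B.dim := by
  obtain ⟨e, _⟩ := h
  exact e.finrank_eq

theorem isom_symm (h : A.Isom B) : B.Isom A := by
  obtain ⟨e, he⟩ := h
  refine ⟨e.symm, fun x => ?_⟩
  apply e.injective
  rw [he, LinearEquiv.apply_symm_apply, LinearEquiv.apply_symm_apply]

theorem eigen_le_of_isom (h : A.Isom B) : A.eigen ≤ B.eigen := by
  obtain ⟨e, he⟩ := h
  have h1 : (ss A.F).map e.toLinearMap ≤ ss B.F := by
    rintro _ ⟨x, hx, rfl⟩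
    exact ss_map he hx
  have h2 : finrank E ((ss A.F).map e.toLinearMap) = finrank E (ss A.F) :=
    (Submodule.equivMapOfInjective e.toLinearMap e.injective _).finrank_eq.symm
  change finrank E (ss A.F) ≤ finrank E (ss B.F)
  rw [← h2]
  exact Submodule.finrank_mono h1

theorem semisimple_of_surj {A B : FSpace.{u, u} E} (f : A.X →ₗ[E] B.X) (hf : Function.Surjective f)
    {c : E} (hc : c ≠ 0) (h : ∀ x, f (A.F x) = c • B.F (f x)) (hA : A.Semisimple) :
    B.Semisimple := by
  change ss B.F = ⊤
  rw [eq_top_iff]
  rintro y -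
  obtain ⟨x, rfl⟩ := hf y
  have h1 : x ∈ ss A.F := by
    have h2 : ss A.F = ⊤ := hA
    rw [h2]
    trivial
  have h2 := ss_map (T := A.F) (U := c • B.F) (i := f) h h1
  rwa [ss_smul hc] at h2

theorem semisimple_of_isom (h : A.Isom B) (hA : A.Semisimple) : B.Semisimple := by
  obtain ⟨e, he⟩ := h
  exact semisimple_of_surj e.toLinearMap e.surjective one_ne_zero
    (fun x => by rw [one_smul]; exact he x) hA

end Isom

/-- if `A ⊗ A` is semisimple, then so is `A` -/
theorem semisimple_of_tensor [IsAlgClosed E] (A : FSpace.{u, u} E) (h : (A.tensor A).Semisimple) :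
    A.Semisimple := by
  rcases subsingleton_or_nontrivial A.X with hs | hn
  · change ss A.F = ⊤
    exact Subsingleton.elim _ _
  · obtain ⟨c, hc⟩ := Module.End.exists_eigenvalue (Module.Dual.transpose (R := E) A.F)
    obtain ⟨f, hf⟩ := hc.exists_hasEigenvector
    have hf1 : ∀ x, f (A.F x) = c * f x := fun x => congrArg (fun g => g x) hf.apply_eq_smul
    have hf0 : f ≠ 0 := hf.2
    obtain ⟨y, hy⟩ : ∃ y, f y ≠ 0 := by
      by_contra hcon
      push Not at hcon
      exact hf0 (LinearMap.ext hcon)
    have hc0 : c ≠ 0 := by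
      rintro rfl
      obtain ⟨z, rfl⟩ := A.bij.2 y
      exact hy (by rw [hf1, zero_mul])
    refine semisimple_of_surj (A := A.tensor A) (B := A)
      ((TensorProduct.rid E A.X).toLinearMap.comp (LinearMap.lTensor A.X f)) (fun x => ?_) hc0
      (fun x => ?_) h
    · refine ⟨((f y)⁻¹ • x) ⊗ₜ[E] y, ?_⟩
      change (TensorProduct.rid E A.X) (LinearMap.lTensor A.X f (((f y)⁻¹ • x) ⊗ₜ[E] y)) = x
      rw [LinearMap.lTensor_tmul, TensorProduct.rid_tmul, smul_smul, mul_inv_cancel₀ hy, one_smul]
    · change (TensorProduct.rid E A.X) (LinearMap.lTensor A.X f (TensorProduct.map A.F A.F x)) =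
        c • A.F ((TensorProduct.rid E A.X) (LinearMap.lTensor A.X f x))
      induction x using TensorProduct.induction_on with
      | zero => simp
      | tmul a b => simp [hf1, smul_smul]
      | add a b ha hb => simp only [map_add, smul_add, ha, hb]

end Pool.Agent.Run7.h604.SY
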