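import Pool.Agent.Run7.h604.SY.Count
import Pool.Agent.Run7.h604.SY.Defs

/-!
# The symmetric products of a projective variety
-/

set_option autoImplicit false

namespace Pool.Agent.Run7.h604.SY

open Module TensorProduct Pool.Agent.Run7.h731.SE

universe u v

section

variable {E : Type u} [Field E]

theorem sym_isom (B : FSpace.{u, u} E) (m : ℕ) : (Sym B m).Isom (symPow B m) :=
  ⟨LinearEquiv.refl E (SymPow E B.X m), fun _ => rfl⟩

theorem ext_isom (B : FSpace.{u, u} E) (m : ℕ) : (Ext B m).Isom (extPow B m) :=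
  ⟨LinearEquiv.refl E (⋀[E]^m B.X), fun _ => rfl⟩

end

namespace ProjCohomology

variable {E : Type u} [Field E] {C : ProjCohomology.{u, v} E}

theorem betti_sym (V : C.Var) (n : ℕ) : C.betti (C.sym V n) = ∑ j : Fin (n + 1),
    (symPow (even (C.H V) (C.dim V)) (n - j)).dim * (C.oddBetti V).choose j := by
  unfold betti
  rw [isom_dim (C.macdonald V n), dim_pi]
  refine Finset.sum_congr rfl fun j _ => ?_
  rw [dim_tensor, isom_dim (sym_isom _ _), isom_dim (ext_isom _ _), extPow_dim]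
  rfl

theorem eigenDim_sym [IsAlgClosed E] (V : C.Var) (n : ℕ) : C.eigenDim (C.sym V n) ≤ ∑ j : Fin (n + 1),
    (symPow (even (C.H V) (C.dim V)) (n - j)).eigen * (C.oddBetti V).choose j := by
  unfold eigenDim
  refine (eigen_le_of_isom (C.macdonald V n)).trans ((eigen_pi_le _).trans ?_)
  refine Finset.sum_le_sum fun j _ => ?_
  refine (eigen_tensor_le _ _).trans (Nat.mul_le_mul (eigen_le_of_isom (sym_isom _ _))
    (le_of_eq ?_))
  rw [isom_dim (ext_isom _ _), extPow_dim]
  rfl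

theorem share_nat [IsAlgClosed E] [CharZero E] {V : C.Var}
    (h : ¬ (even (C.H V) (C.dim V)).Semisimple) (k : ℕ) :
    (k + (C.evenBetti V - 1)) * C.eigenDim (C.sym V (C.oddBetti V + k)) ≤
      (C.evenBetti V - 1) * C.betti (C.sym V (C.oddBetti V + k)) := by
  rw [betti_sym]
  refine (Nat.mul_le_mul_left _ (eigenDim_sym V _)).trans ?_
  rw [Finset.mul_sum, Finset.mul_sum]
  refine Finset.sum_le_sum fun j _ => ?_
  rw [← mul_assoc, ← mul_assoc]
  by_cases hj : (j : ℕ) ≤ C.oddBetti V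
  · refine Nat.mul_le_mul_right _ ?_
    refine le_trans ?_ (share_symPow h (C.oddBetti V + k - j))
    exact Nat.mul_le_mul_right _ (by
      change k + (C.evenBetti V - 1) ≤ C.oddBetti V + k - j + (C.evenBetti V - 1)
      omega)
  · rw [Nat.choose_eq_zero_of_lt (by omega), mul_zero, mul_zero]

theorem betti_pos [IsAlgClosed E] {V : C.Var} (h : ¬ (even (C.H V) (C.dim V)).Semisimple) (n : ℕ) :
    1 ≤ C.betti (C.sym V n) := by
  rw [betti_sym]
  have h1 := two_le_dim h
  refine le_trans ?_ (Finset.single_le_sum (f := fun j : Fin (n + 1) =>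
    (symPow (even (C.H V) (C.dim V)) (n - j)).dim * (C.oddBetti V).choose j)
    (fun _ _ => Nat.zero_le _) (Finset.mem_univ 0))
  rw [Fin.val_zero, Nat.choose_zero_right, mul_one]
  exact symPow_pos (E := E) (by unfold FSpace.dim at h1; omega) _

theorem betti_le [IsAlgClosed E] {V : C.Var} (h : ¬ (even (C.H V) (C.dim V)).Semisimple) (n : ℕ) :
    C.betti (C.sym V n) ≤ 2 ^ C.oddBetti V * (n + C.evenBetti V) ^ (C.evenBetti V - 1) := by
  rw [betti_sym]
  have h1 := two_le_dim h
  have h2 : ∑ j : Fin (n + 1), (symPow (even (C.H V) (C.dim V)) (n - j)).dim *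
      (C.oddBetti V).choose j ≤ ∑ j : Fin (n + 1), (n + C.evenBetti V) ^ (C.evenBetti V - 1) *
        (C.oddBetti V).choose j := by
    refine Finset.sum_le_sum fun j _ => Nat.mul_le_mul_right _ ?_
    exact symPow_le (E := E) _ n (Nat.sub_le _ _) (by unfold FSpace.dim at h1; omega)
  refine h2.trans ?_
  rw [← Finset.mul_sum, mul_comm]
  refine Nat.mul_le_mul_right _ ?_
  rw [Fin.sum_univ_eq_sum_range (fun j => (C.oddBetti V).choose j) (n + 1)]
  rw [← Nat.sum_range_choose]
  have h3 : ∑ j ∈ Finset.range (n + 1), (C.oddBetti V).choose j ≤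
      ∑ j ∈ Finset.range (n + 1 + (C.oddBetti V + 1)), (C.oddBetti V).choose j :=
    Finset.sum_le_sum_of_subset (Finset.range_mono (by omega))
  refine h3.trans (le_of_eq ?_)
  refine (Finset.sum_subset (Finset.range_mono (by omega)) fun j _ hj => ?_).symm
  rw [Finset.mem_range] at hj
  exact Nat.choose_eq_zero_of_lt (by omega)

theorem few [IsAlgClosed E] [CharZero E] {V : C.Var}
    (h : ¬ (even (C.H V) (C.dim V)).Semisimple) : C.Few V := by
  have h1 : 2 ≤ C.evenBetti V := two_le_dim h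
  refine ⟨h1, fun k => ?_, betti_pos h, betti_le h⟩
  have h2 := share_nat h k
  obtain ⟨c, hc⟩ : ∃ c, C.evenBetti V = c + 1 := ⟨C.evenBetti V - 1, by omega⟩
  rw [hc, Nat.add_sub_cancel] at h2
  have h3 : ((k : ℝ) + c) * C.eigenDim (C.sym V (C.oddBetti V + k)) ≤
      c * C.betti (C.sym V (C.oddBetti V + k)) := by exact_mod_cast h2
  have h4 : (0 : ℝ) < (k : ℝ) + c := by
    have : (1 : ℝ) ≤ c := by
      have : 1 ≤ c := by omega
      exact_mod_cast this
    positivity
  rw [hc]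
  push_cast
  have e1 : (k : ℝ) + (c + 1) - 1 = k + c := by ring
  have e2 : (c : ℝ) + 1 - 1 = c := by ring
  rw [e1, e2, div_mul_eq_mul_div, le_div_iff₀ h4]
  linarith

theorem semisimple_of_even {V : C.Var} (h : (even (C.H V) (C.dim V)).Semisimple) (i : ℕ) :
    (C.H V (2 * i)).Semisimple := by
  by_cases hi : i < C.dim V + 1
  · exact (semisimple_pi (fun i : Fin (C.dim V + 1) => C.H V (2 * i))).1 h ⟨i, hi⟩
  · exact semisimple_of_dim (C.vanishing V _ (by omega))

theorem semisimple_of_prod [IsAlgClosed E] {V : C.Var}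
    (h : (even (C.H (C.prod V V)) (C.dim (C.prod V V))).Semisimple) (r : ℕ) :
    (C.H V r).Semisimple := by
  have h2 := semisimple_of_isom (C.kunneth V V (2 * r)) (semisimple_of_even h r)
  have h3 := (semisimple_pi _).1 h2 ⟨r, by omega⟩
  have h4 : 2 * r - r = r := by omega
  simp only [h4] at h3
  exact semisimple_of_tensor _ h3

theorem few_of_even [IsAlgClosed E] [CharZero E] {V : C.Var} {r : ℕ} (h : ¬ (C.H V r).Semisimple)
    (hr : Even r) : C.Few V := by
  refine few fun hV => h ?_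
  obtain ⟨i, rfl⟩ := hr
  rw [← two_mul]
  exact semisimple_of_even hV i

theorem few_of_any [IsAlgClosed E] [CharZero E] {V : C.Var} {r : ℕ} (h : ¬ (C.H V r).Semisimple) :
    C.Few (C.prod V V) :=
  few fun hV => h (semisimple_of_prod hV r)

/-- if the Frobenius is semisimple in the even degrees for all varieties, then it is semisimple -/
theorem all_of_even [IsAlgClosed E] (h : ∀ V : C.Var, (even (C.H V) (C.dim V)).Semisimple) :
    C.AllSemisimple := fun V r => semisimple_of_prod (h (C.prod V V)) r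

theorem total_semisimple (h : C.AllSemisimple) (V : C.Var) :
    (total (C.H V) (C.dim V)).Semisimple :=
  (semisimple_pi _).2 fun r => h V r

theorem eigenDim_eq (h : C.AllSemisimple) (V : C.Var) : C.eigenDim V = C.betti V :=
  eigen_of_semisimple (total_semisimple h V)

theorem eigenDim_le (V : C.Var) : C.eigenDim V ≤ C.betti V := eigen_le_dim _

theorem dim_zero_of_betti {V : C.Var} (h : C.betti V = 0) (r : ℕ) : (C.H V r).dim = 0 := by
  by_cases hr : r < 2 * C.dim V + 1
  · unfold betti total at h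
    rw [dim_pi] at h
    exact (Finset.sum_eq_zero_iff.1 h) ⟨r, hr⟩ (Finset.mem_univ _)
  · exact C.vanishing V r (by omega)

theorem average_of_all (h : C.AllSemisimple) : C.AverageSmall := by
  intro ε hε hε1
  refine ⟨1, one_pos, fun V => ?_⟩
  rw [one_mul, eigenDim_eq h]
  rcases Nat.eq_zero_or_pos (C.betti V) with h0 | h0
  · rw [h0, Nat.cast_zero, Real.zero_rpow (by linarith)]
  · have h1 : (1 : ℝ) ≤ C.betti V := by exact_mod_cast h0
    calc (C.betti V : ℝ) ^ (1 - ε) ≤ (C.betti V : ℝ) ^ (1 : ℝ) :=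
          Real.rpow_le_rpow_of_exponent_le h1 (by linarith)
      _ = C.betti V := Real.rpow_one _

theorem share_of_all (h : C.AllSemisimple) : C.ShareLarge := by
  refine ⟨fun _ => 1, fun _ => one_pos, ?_, fun V => ?_⟩
  · unfold ToInfinity
    simpa using tendsto_natCast_atTop_atTop (R := ℝ)
  · rw [one_mul, eigenDim_eq h]

theorem blocks_of_all (h : C.AllSemisimple) : C.BlocksSmall := by
  intro ε hε
  refine ⟨1, fun V => ?_⟩
  rcases Nat.eq_zero_or_pos (C.betti V) with h0 | h0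
  · refine ⟨0, ?_, fun r => blocksLe_of_dim (dim_zero_of_betti h0 r) 0⟩
    rw [Nat.cast_zero, one_mul]
    positivity
  · refine ⟨1, ?_, fun r => blocksLe_one (h V r)⟩
    rw [Nat.cast_one, one_mul]
    exact Real.one_le_rpow (by exact_mod_cast h0) hε.le

theorem average_of_blocks [IsAlgClosed E] (h : C.BlocksSmall) : C.AverageSmall := by
  intro ε hε hε1
  obtain ⟨K, hK⟩ := h ε hε
  refine ⟨1 / max K 1, by positivity, fun V => ?_⟩
  obtain ⟨k, hk, hb⟩ := hK V
  have h1 : C.betti V ≤ k * C.eigenDim V :=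
    dim_le_of_blocks _ (blocksLe_pi _ fun r => hb r)
  rcases Nat.eq_zero_or_pos (C.betti V) with h0 | h0
  · rw [h0, Nat.cast_zero, Real.zero_rpow (by linarith), mul_zero]
    positivity
  · have hb0 : (0 : ℝ) < C.betti V := by exact_mod_cast h0
    have h2 : (C.betti V : ℝ) ≤ k * C.eigenDim V := by exact_mod_cast h1
    have h3 : (k : ℝ) ≤ max K 1 * (C.betti V : ℝ) ^ ε :=
      hk.trans (mul_le_mul_of_nonneg_right (le_max_left _ _) (by positivity))
    have h4 : (C.betti V : ℝ) ≤ max K 1 * (C.betti V : ℝ) ^ ε * C.eigenDim V :=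
      h2.trans (mul_le_mul_of_nonneg_right h3 (by positivity))
    rw [Real.rpow_sub hb0, Real.rpow_one, div_mul_div_comm, one_mul,
      div_le_iff₀ (by positivity)]
    linarith

/-- a constant with `betti (sym V (b' + k)) ≤ M (k + 1) ^ (b - 1)` -/
theorem exists_bound {V : C.Var} (h : C.Few V) : ∃ M : ℝ, 1 ≤ M ∧ ∀ k : ℕ,
    (C.betti (C.sym V (C.oddBetti V + k)) : ℝ) ≤ M * ((k : ℝ) + 1) ^ (C.evenBetti V - 1) := by
  refine ⟨2 ^ C.oddBetti V * ((C.oddBetti V : ℝ) + C.evenBetti V) ^ (C.evenBetti V - 1), ?_,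
    fun k => ?_⟩
  · have h1 : (1 : ℝ) ≤ (C.oddBetti V : ℝ) + C.evenBetti V := by
      have h2 : 1 ≤ C.oddBetti V + C.evenBetti V := by have := h.two_le; omega
      exact_mod_cast h2
    exact one_le_mul_of_one_le_of_one_le (one_le_pow₀ one_le_two) (one_le_pow₀ h1)
  · have h1 : (C.betti (C.sym V (C.oddBetti V + k)) : ℝ) ≤
        2 ^ C.oddBetti V * (((C.oddBetti V : ℝ) + k) + C.evenBetti V) ^ (C.evenBetti V - 1) := by
      exact_mod_cast h.betti_le (C.oddBetti V + k)
    refine h1.trans ?_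
    rw [mul_assoc, ← mul_pow]
    refine mul_le_mul_of_nonneg_left (pow_le_pow_left₀ (by positivity) ?_ _) (by positivity)
    have h2 : (1 : ℝ) ≤ (C.oddBetti V : ℝ) + C.evenBetti V := by
      have h3 : 1 ≤ C.oddBetti V + C.evenBetti V := by have := h.two_le; omega
      exact_mod_cast h3
    have h4 : (0 : ℝ) ≤ k := Nat.cast_nonneg k
    nlinarith

/-- the share of the eigenvectors, in a simple form -/
theorem share_simple {V : C.Var} (h : C.Few V) (k : ℕ) :
    ((k : ℝ) + 1) * C.eigenDim (C.sym V (C.oddBetti V + k)) ≤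
      ((C.evenBetti V : ℝ) - 1) * C.betti (C.sym V (C.oddBetti V + k)) := by
  have h1 := h.share k
  have h2 : (2 : ℝ) ≤ C.evenBetti V := by exact_mod_cast h.two_le
  have h3 : (0 : ℝ) < (k : ℝ) + C.evenBetti V - 1 := by
    have h4 : (0 : ℝ) ≤ k := Nat.cast_nonneg k
    linarith
  rw [div_mul_eq_mul_div, le_div_iff₀ h3] at h1
  have h4 : ((k : ℝ) + 1) * C.eigenDim (C.sym V (C.oddBetti V + k)) ≤
      ((k : ℝ) + C.evenBetti V - 1) * C.eigenDim (C.sym V (C.oddBetti V + k)) :=
    mul_le_mul_of_nonneg_right (by linarith) (Nat.cast_nonneg _)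
  linarith

theorem all_of_average [IsAlgClosed E] [CharZero E] (h : C.AverageSmall) : C.AllSemisimple := by
  refine all_of_even fun V => ?_
  by_contra hV
  have hF := few hV
  have hb2 := hF.two_le
  obtain ⟨c, hc⟩ : ∃ c, C.evenBetti V = c + 1 := ⟨C.evenBetti V - 1, by omega⟩
  have hc1 : (1 : ℝ) ≤ c := by
    have h1 : 1 ≤ c := by omega
    exact_mod_cast h1
  obtain ⟨κ, hκ, hall⟩ := h (1 / (2 * c)) (by positivity) (by
    rw [div_lt_one (by positivity)]
    linarith)
  obtain ⟨M, hM, hbound⟩ := exists_bound hF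
  have key : ∀ k : ℕ, κ * ((k : ℝ) + 1) ^ (1 / 2 : ℝ) ≤ c * M ^ (1 / (2 * (c : ℝ))) := by
    intro k
    have h1 := share_simple hF k
    have h2 := hall (C.sym V (C.oddBetti V + k))
    have h3 := hbound k
    rw [hc, Nat.add_sub_cancel] at h3
    rw [hc] at h1
    push_cast at h1
    set b : ℝ := (C.betti (C.sym V (C.oddBetti V + k)) : ℝ) with hb
    set e : ℝ := (C.eigenDim (C.sym V (C.oddBetti V + k)) : ℝ) with he
    have hb1 : 1 ≤ b := by
      rw [hb]
      exact_mod_cast hF.betti_pos _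
    have hb0 : 0 < b := by linarith
    have hk0 : (0 : ℝ) < (k : ℝ) + 1 := by positivity
    have h4 : κ * ((k : ℝ) + 1) ≤ c * b ^ (1 / (2 * (c : ℝ))) := by
      have h5 : ((k : ℝ) + 1) * (κ * b ^ (1 - 1 / (2 * (c : ℝ)))) ≤ c * b := by
        refine (mul_le_mul_of_nonneg_left h2 hk0.le).trans ?_
        linarith
      rw [Real.rpow_sub hb0, Real.rpow_one] at h5
      have h6 : 0 < b ^ (1 / (2 * (c : ℝ))) := Real.rpow_pos_of_pos hb0 _
      have h7 : ((k : ℝ) + 1) * (κ * (b / b ^ (1 / (2 * (c : ℝ))))) * b ^ (1 / (2 * (c : ℝ))) ≤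
          c * b * b ^ (1 / (2 * (c : ℝ))) := mul_le_mul_of_nonneg_right h5 h6.le
      have h8 : ((k : ℝ) + 1) * (κ * (b / b ^ (1 / (2 * (c : ℝ))))) * b ^ (1 / (2 * (c : ℝ))) =
          (κ * ((k : ℝ) + 1)) * b := by
        field_simp
      rw [h8] at h7
      have h9 : (κ * ((k : ℝ) + 1)) * b ≤ (c * b ^ (1 / (2 * (c : ℝ)))) * b := by
        refine h7.trans (le_of_eq ?_)
        ring
      exact le_of_mul_le_mul_right h9 hb0
    have h5 : b ^ (1 / (2 * (c : ℝ))) ≤
        M ^ (1 / (2 * (c : ℝ))) * ((k : ℝ) + 1) ^ (1 / 2 : ℝ) := by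
      refine (Real.rpow_le_rpow hb0.le h3 (by positivity)).trans (le_of_eq ?_)
      rw [Real.mul_rpow (by linarith) (by positivity), ← Real.rpow_natCast, ← Real.rpow_mul hk0.le]
      congr 2
      field_simp
    have h6 : κ * ((k : ℝ) + 1) ≤
        c * M ^ (1 / (2 * (c : ℝ))) * ((k : ℝ) + 1) ^ (1 / 2 : ℝ) := by
      refine h4.trans ?_
      rw [mul_assoc]
      exact mul_le_mul_of_nonneg_left h5 (by linarith)
    have h7 : 0 < ((k : ℝ) + 1) ^ (1 / 2 : ℝ) := Real.rpow_pos_of_pos hk0 _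
    have h8 : ((k : ℝ) + 1) ^ (1 / 2 : ℝ) * ((k : ℝ) + 1) ^ (1 / 2 : ℝ) = (k : ℝ) + 1 := by
      rw [← Real.rpow_add hk0]
      norm_num
    have h9 : (κ * ((k : ℝ) + 1) ^ (1 / 2 : ℝ)) * ((k : ℝ) + 1) ^ (1 / 2 : ℝ) ≤
        (c * M ^ (1 / (2 * (c : ℝ)))) * ((k : ℝ) + 1) ^ (1 / 2 : ℝ) := by
      rw [mul_assoc, h8]
      exact h6
    exact le_of_mul_le_mul_right h9 h7
  have hlim : Filter.Tendsto (fun k : ℕ => κ * ((k : ℝ) + 1) ^ (1 / 2 : ℝ)) Filter.atTop
      Filter.atTop := by
    refine Filter.Tendsto.const_mul_atTop hκ ?_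
    refine (tendsto_rpow_atTop (by norm_num)).comp ?_
    exact Filter.tendsto_atTop_add_const_right _ _ tendsto_natCast_atTop_atTop
  obtain ⟨k, hk⟩ := (hlim.eventually_gt_atTop (c * M ^ (1 / (2 * (c : ℝ))))).exists
  exact absurd (key k) (not_le.2 hk)

theorem all_of_share [IsAlgClosed E] [CharZero E] (h : C.ShareLarge) : C.AllSemisimple := by
  obtain ⟨φ, hφ, hlim, hall⟩ := h
  refine all_of_even fun V => ?_
  by_contra hV
  have hF := few hV
  have hb2 : (2 : ℝ) ≤ C.evenBetti V := by exact_mod_cast hF.two_le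
  have key : ∀ k : ℕ, ((k : ℝ) + 1) * φ ((C.oddBetti V + k) * C.dim V) ≤ C.evenBetti V - 1 := by
    intro k
    have h1 := share_simple hF k
    have h2 := hall (C.sym V (C.oddBetti V + k))
    rw [C.dim_sym] at h2
    have hb0 : (0 : ℝ) < C.betti (C.sym V (C.oddBetti V + k)) := by
      exact_mod_cast hF.betti_pos _
    have hk0 : (0 : ℝ) < (k : ℝ) + 1 := by positivity
    have h3 : (((k : ℝ) + 1) * φ ((C.oddBetti V + k) * C.dim V)) *
        C.betti (C.sym V (C.oddBetti V + k)) ≤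
        (C.evenBetti V - 1) * C.betti (C.sym V (C.oddBetti V + k)) := by
      rw [mul_assoc]
      exact (mul_le_mul_of_nonneg_left h2 hk0.le).trans h1
    exact le_of_mul_le_mul_right h3 hb0
  rcases Nat.eq_zero_or_pos (C.dim V) with hd | hd
  · rw [hd] at key
    simp only [mul_zero] at key
    obtain ⟨k, hk⟩ := exists_nat_gt (((C.evenBetti V : ℝ) - 1) / φ 0)
    rw [div_lt_iff₀ (hφ 0)] at hk
    have h1 := key k
    have h2 := hφ 0
    linarith
  · have hN : Filter.Tendsto (fun k : ℕ => (C.oddBetti V + k) * C.dim V) Filter.atTop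
        Filter.atTop := by
      refine Filter.tendsto_atTop_mono (fun k => ?_) Filter.tendsto_id
      calc id k ≤ C.oddBetti V + k := by simp
        _ ≤ (C.oddBetti V + k) * C.dim V := Nat.le_mul_of_pos_right _ hd
    have h1 := hlim.comp hN
    obtain ⟨k, hk⟩ := (h1.eventually_gt_atTop
      (((C.oddBetti V : ℝ) + 1) * C.dim V * (C.evenBetti V - 1))).exists
    have h2 := key k
    have h3 : (((C.oddBetti V + k) * C.dim V : ℕ) : ℝ) * φ ((C.oddBetti V + k) * C.dim V) ≤
        ((C.oddBetti V : ℝ) + 1) * C.dim V * (C.evenBetti V - 1) := by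
      have h4 : (((C.oddBetti V + k) * C.dim V : ℕ) : ℝ) ≤
          ((C.oddBetti V : ℝ) + 1) * C.dim V * ((k : ℝ) + 1) := by
        push_cast
        have h5 : (0 : ℝ) ≤ C.oddBetti V := Nat.cast_nonneg _
        have h6 : (0 : ℝ) ≤ C.dim V := Nat.cast_nonneg _
        have h7 : (0 : ℝ) ≤ k := Nat.cast_nonneg _
        have h8 : (C.oddBetti V : ℝ) + k ≤ ((C.oddBetti V : ℝ) + 1) * ((k : ℝ) + 1) := by nlinarith
        calc ((C.oddBetti V : ℝ) + k) * C.dim V
            ≤ ((C.oddBetti V : ℝ) + 1) * ((k : ℝ) + 1) * C.dim V :=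
              mul_le_mul_of_nonneg_right h8 h6
          _ = _ := by ring
      calc (((C.oddBetti V + k) * C.dim V : ℕ) : ℝ) * φ ((C.oddBetti V + k) * C.dim V)
          ≤ ((C.oddBetti V : ℝ) + 1) * C.dim V * ((k : ℝ) + 1) *
            φ ((C.oddBetti V + k) * C.dim V) := mul_le_mul_of_nonneg_right h4 (hφ _).le
        _ = ((C.oddBetti V : ℝ) + 1) * C.dim V *
            (((k : ℝ) + 1) * φ ((C.oddBetti V + k) * C.dim V)) := by ring
        _ ≤ _ := mul_le_mul_of_nonneg_left h2 (by positivity)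
    exact absurd h3 (not_le.2 hk)

end ProjCohomology

end Pool.Agent.Run7.h604.SY
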