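import Pool.Agent.Run7.h731.SE.Coh

/-!
# Symmetric and exterior powers of a space with an operator
-/

set_option autoImplicit false

namespace Pool.Agent.Run7.h604.SY

open Module TensorProduct Pool.Agent.Run7.h731.SE

universe u

variable {E : Type u} [Field E]

section Sym

variable {A : Type u} [AddCommGroup A] [Module E A]

/-- the endomorphism of the symmetric algebra of `A` which is `F` on `A` -/
noncomputable def symMap (F : Module.End E A) : SymmetricAlgebra E A →ₐ[E] SymmetricAlgebra E A :=
  SymmetricAlgebra.lift ((SymmetricAlgebra.ι E A).comp F)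

variable (E A) in
/-- the `m`-th symmetric power of `A`: the part of degree `m` of the symmetric algebra -/
noncomputable def SymPow (m : ℕ) : Submodule E (SymmetricAlgebra E A) :=
  LinearMap.range (SymmetricAlgebra.ι E A) ^ m

theorem symMap_ι (F : Module.End E A) (x : A) :
    symMap F (SymmetricAlgebra.ι E A x) = SymmetricAlgebra.ι E A (F x) := by
  unfold symMap
  rw [SymmetricAlgebra.lift_ι_apply]
  rfl

theorem symMap_mem (F : Module.End E A) {m : ℕ} {x : SymmetricAlgebra E A}
    (hx : x ∈ SymPow E A m) : symMap F x ∈ SymPow E A m := by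
  have h1 : (SymPow E A m).map (symMap F).toLinearMap ≤ SymPow E A m := by
    unfold SymPow
    rw [Submodule.map_pow]
    refine pow_le_pow_left' ?_ m
    rintro _ ⟨_, ⟨x, rfl⟩, rfl⟩
    exact ⟨F x, (symMap_ι F x).symm⟩
  exact h1 ⟨x, hx, rfl⟩

theorem symMap_injective {F : Module.End E A} (hF : Function.Bijective F) :
    Function.Injective (symMap F) := by
  set G : Module.End E A := (LinearEquiv.ofBijective F hF).symm.toLinearMap with hG
  have h : (symMap G).comp (symMap F) = AlgHom.id E _ := by
    apply SymmetricAlgebra.algHom_ext
    refine LinearMap.ext fun x => ?_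
    have h1 : G (F x) = x := (LinearEquiv.ofBijective F hF).symm_apply_apply x
    change symMap G (symMap F (SymmetricAlgebra.ι E A x)) = SymmetricAlgebra.ι E A x
    rw [symMap_ι, symMap_ι, h1]
  intro x y hxy
  have h2 := congrArg (symMap G) hxy
  have h3 : ∀ z, symMap G (symMap F z) = z := fun z => congrArg (fun f => f z) h
  rwa [h3, h3] at h2

instance [FiniteDimensional E A] (m : ℕ) : FiniteDimensional E (SymPow E A m) := by
  have h : (LinearMap.range (SymmetricAlgebra.ι E A)).FG := Module.Finite.iff_fg.1
    (LinearMap.finiteDimensional_range (SymmetricAlgebra.ι E A))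
  exact Module.Finite.iff_fg.2 (h.pow m)

end Sym

/-- the `m`-th symmetric power of `(A, F)` -/
noncomputable def symPow (A : FSpace.{u, u} E) (m : ℕ) : FSpace.{u, u} E where
  X := SymPow E A.X m
  F := (symMap A.F).toLinearMap.restrict fun _ hx => symMap_mem A.F hx
  bij := by
    have h : Function.Injective ((symMap A.F).toLinearMap.restrict
        fun _ hx => symMap_mem A.F hx : Module.End E (SymPow E A.X m)) := fun x y hxy =>
      Subtype.ext (symMap_injective A.bij (congrArg Subtype.val hxy))
    exact ⟨h, LinearMap.injective_iff_surjective.1 h⟩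

/-- the `m`-th exterior power of `(A, F)` -/
noncomputable def extPow (A : FSpace.{u, u} E) (m : ℕ) : FSpace.{u, u} E where
  X := ⋀[E]^m A.X
  F := exteriorPower.map m A.F
  bij := by
    have h := exteriorPower.map_injective_field (n := m) (f := A.F) A.bij.1
    exact ⟨h, LinearMap.injective_iff_surjective.1 h⟩

end Pool.Agent.Run7.h604.SY
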