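import Pool.Agent.Run7.h604.SY.Pow

/-!
# An eigenvector in the symmetric algebra is not divisible by a vector which is not an eigenvector
-/

set_option autoImplicit false

namespace Pool.Agent.Run7.h604.SY

open Module TensorProduct Pool.Agent.Run7.h731.SE Polynomial

universe u

variable {E : Type u} [Field E] {A : Type u} [AddCommGroup A] [Module E A]

theorem pow_jordan {F : Module.End E A} {μ : E} (hμ : μ ≠ 0) {v w : A} (hv : F v = μ • v)
    (hw : F w = μ • w + v) (k : ℕ) : (F ^ k) w = μ ^ k • (w + ((k : E) / μ) • v) := by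
  have h1 : ∀ k : ℕ, (F ^ k) v = μ ^ k • v := by
    intro k
    induction k with
    | zero => simp
    | succ k ih => rw [pow_succ', Module.End.mul_apply, ih, map_smul, hv, smul_smul, ← pow_succ]
  induction k with
  | zero => simp
  | succ k ih =>
    rw [pow_succ', Module.End.mul_apply, ih, map_smul, map_add, map_smul, hv, hw, pow_succ, mul_smul]
    congr 1
    rw [smul_add, smul_smul, smul_smul, add_assoc]
    congr 1
    nth_rewrite 1 [← one_smul E v]
    rw [← add_smul]
    congr 1
    push_cast
    field_simp
    ring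

theorem symMap_pow (F : Module.End E A) (k : ℕ) (x : A) :
    ((symMap F)^[k]) (SymmetricAlgebra.ι E A x) = SymmetricAlgebra.ι E A ((F ^ k) x) := by
  induction k generalizing x with
  | zero => simp
  | succ k ih => rw [Function.iterate_succ_apply, symMap_ι, ih, pow_succ, Module.End.mul_apply]

/-- the line through the generic point of the dual space -/
noncomputable def flow (φ : A →ₗ[E] E) (v : A) :
    SymmetricAlgebra E A →ₐ[E] (FractionRing (SymmetricAlgebra E A))[X] :=
  SymmetricAlgebra.lift
    ((CAlgHom (R := E) (A := FractionRing (SymmetricAlgebra E A))).toLinearMap.comp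
      ((IsScalarTower.toAlgHom E (SymmetricAlgebra E A)
        (FractionRing (SymmetricAlgebra E A))).toLinearMap.comp (SymmetricAlgebra.ι E A)) +
      φ.smulRight (C (algebraMap _ (FractionRing (SymmetricAlgebra E A)) (SymmetricAlgebra.ι E A v)) * X))

theorem flow_ι (φ : A →ₗ[E] E) (v x : A) : flow φ v (SymmetricAlgebra.ι E A x) =
    C (algebraMap _ (FractionRing (SymmetricAlgebra E A)) (SymmetricAlgebra.ι E A x)) +
      φ x • (C (algebraMap _ (FractionRing (SymmetricAlgebra E A)) (SymmetricAlgebra.ι E A v)) * X) := by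
  unfold flow
  rw [SymmetricAlgebra.lift_ι_apply]
  rfl

theorem flow_zero (φ : A →ₗ[E] E) (v : A) (p : SymmetricAlgebra E A) :
    (flow φ v p).eval 0 = algebraMap _ (FractionRing (SymmetricAlgebra E A)) p := by
  have h : ((aeval (R := FractionRing (SymmetricAlgebra E A))
      (0 : FractionRing (SymmetricAlgebra E A))).restrictScalars E).comp (flow φ v) =
      IsScalarTower.toAlgHom E (SymmetricAlgebra E A) (FractionRing (SymmetricAlgebra E A)) := by
    apply SymmetricAlgebra.algHom_ext
    refine LinearMap.ext fun x => ?_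
    change aeval (0 : FractionRing (SymmetricAlgebra E A)) (flow φ v (SymmetricAlgebra.ι E A x)) =
      algebraMap _ (FractionRing (SymmetricAlgebra E A)) (SymmetricAlgebra.ι E A x)
    rw [flow_ι, coe_aeval_eq_eval]
    simp
  have h1 := congrArg (fun f => f p) h
  rw [← coe_aeval_eq_eval]
  exact h1

theorem ι_ne_zero {v : A} (hv : v ≠ 0) : SymmetricAlgebra.ι E A v ≠ 0 := by
  intro h
  obtain ⟨φ, hφ⟩ : ∃ φ : A →ₗ[E] E, φ v ≠ 0 := by
    by_contra hcon
    push Not at hcon
    exact hv ((Module.forall_dual_apply_eq_zero_iff E v).1 hcon)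
  have h1 := congrArg (SymmetricAlgebra.lift φ) h
  rw [SymmetricAlgebra.lift_ι_apply, map_zero] at h1
  exact hφ h1

theorem eq_zero_of_dvd [CharZero E] {F : Module.End E A} {μ : E} (hμ : μ ≠ 0) {v w : A}
    (hv0 : v ≠ 0) (hv : F v = μ • v) (hw : F w = μ • w + v) {p q : SymmetricAlgebra E A} {c : E}
    (hc : c ≠ 0) (hp : symMap F p = c • p) (hpq : p = SymmetricAlgebra.ι E A w * q) : p = 0 := by
  set K := FractionRing (SymmetricAlgebra E A) with hK
  set g : A → K := fun x => algebraMap _ K (SymmetricAlgebra.ι E A x) with hg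
  have hgv : g v ≠ 0 := by
    rw [hg]
    simpa using ι_ne_zero (E := E) hv0
  obtain ⟨φ, hφv, hφw⟩ : ∃ φ : A →ₗ[E] E, φ v = 0 ∧ φ w = 1 := by
    have h1 : w ∉ Submodule.span E {v} := by
      intro h
      obtain ⟨a, rfl⟩ := Submodule.mem_span_singleton.1 h
      rw [map_smul, hv, smul_comm] at hw
      exact hv0 (left_eq_add.1 hw)
    obtain ⟨f, hf1, hf2⟩ := Submodule.exists_le_ker_of_notMem (p := Submodule.span E {v}) h1
    refine ⟨(f w)⁻¹ • f, ?_, ?_⟩
    · have h2 : f v = 0 := hf2 (Submodule.mem_span_singleton_self v)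
      rw [LinearMap.smul_apply, h2, smul_zero]
    · rw [LinearMap.smul_apply, smul_eq_mul, inv_mul_cancel₀ hf1]
  have hit : ∀ k : ℕ, ((symMap F)^[k]) p = c ^ k • p := by
    intro k
    induction k with
    | zero => simp
    | succ k ih => rw [Function.iterate_succ_apply', ih, map_smul, hp, smul_smul, ← pow_succ]
  have hmul : ∀ (k : ℕ) (x y : SymmetricAlgebra E A),
      ((symMap F)^[k]) (x * y) = ((symMap F)^[k]) x * ((symMap F)^[k]) y := by
    intro k
    induction k with
    | zero => intro x y; rfl
    | succ k ih => intro x y; simp only [Function.iterate_succ_apply, map_mul, ih]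
  have hroot : ∀ k : ℕ, (flow φ v p).eval (-(g w / g v) - algebraMap E K ((k : E) / μ)) = 0 := by
    intro k
    have h1 : c ^ k • p = SymmetricAlgebra.ι E A (μ ^ k • (w + ((k : E) / μ) • v)) *
        ((symMap F)^[k]) q := by
      rw [← hit, hpq, hmul, symMap_pow, pow_jordan hμ hv hw]
    have h2 := congrArg (fun x => (flow φ v x).eval (-(g w / g v) - algebraMap E K ((k : E) / μ))) h1
    simp only [map_smul, map_mul, map_add, eval_smul, eval_mul, flow_ι, hφv, hφw, eval_add, eval_C,
      eval_X, one_smul, zero_smul, add_zero] at h2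
    have h3 : (algebraMap (SymmetricAlgebra E A) K) (SymmetricAlgebra.ι E A w) +
        (algebraMap (SymmetricAlgebra E A) K) (SymmetricAlgebra.ι E A v) *
          (-(g w / g v) - algebraMap E K ((k : E) / μ)) + ((k : E) / μ) •
            (algebraMap (SymmetricAlgebra E A) K) (SymmetricAlgebra.ι E A v) = 0 := by
      change g w + g v * (-(g w / g v) - algebraMap E K ((k : E) / μ)) + ((k : E) / μ) • g v = 0
      rw [Algebra.smul_def]
      have h5 : g v * (g w / g v) = g w := mul_div_cancel₀ _ hgv
      linear_combination -h5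
    rw [h3, smul_zero, zero_mul, smul_eq_zero] at h2
    rcases h2 with h2 | h2
    · exact absurd h2 (pow_ne_zero k hc)
    · exact h2
  have hinj : Function.Injective fun k : ℕ => -(g w / g v) - algebraMap E K ((k : E) / μ) := by
    intro a b hab
    have h1 : algebraMap E K ((a : E) / μ) = algebraMap E K ((b : E) / μ) := sub_right_injective hab
    have h2 := (algebraMap E K).injective h1
    have h3 : (a : E) = b := by
      rwa [div_left_inj' hμ] at h2
    exact_mod_cast h3
  have hzero : flow φ v p = 0 :=
    Polynomial.eq_zero_of_infinite_isRoot _ ((Set.infinite_range_of_injective hinj).mono (by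
      rintro _ ⟨k, rfl⟩
      exact hroot k))
  have h4 := flow_zero φ v p
  rw [hzero, eval_zero] at h4
  exact (IsFractionRing.injective (SymmetricAlgebra E A) K) (by rw [← h4, map_zero])

end Pool.Agent.Run7.h604.SY
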