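import Pool.Agent.Run7.h604.SY.Root
import Pool.Agent.Run7.h604.SY.Dim
import Pool.Agent.Run7.h731.SE.Geo

/-!
# The eigenvectors in the symmetric powers of an operator which is not semisimple
-/

set_option autoImplicit false

namespace Pool.Agent.Run7.h604.SY

open Module TensorProduct Pool.Agent.Run7.h731.SE

universe u

variable {E : Type u} [Field E]

section Lin

variable {M N : Type*} [AddCommGroup M] [Module E M] [AddCommGroup N] [Module E N]

/-- the span of the eigenvectors -/
def ss (T : Module.End E M) : Submodule E M := ⨆ ν : E, T.eigenspace ν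

theorem ss_map {T : Module.End E M} {U : Module.End E N} {i : M →ₗ[E] N}
    (h : ∀ x, i (T x) = U (i x)) {x : M} (hx : x ∈ ss T) : i x ∈ ss U := by
  have h1 : (ss T).map i ≤ ss U := by
    unfold ss
    rw [Submodule.map_iSup]
    refine iSup_mono fun ν => ?_
    rintro _ ⟨y, hy, rfl⟩
    rw [Module.End.mem_eigenspace_iff, ← h, Module.End.mem_eigenspace_iff.1 hy, map_smul]
  exact h1 ⟨x, hx, rfl⟩

theorem gen_map {T : Module.End E M} {U : Module.End E N} {i : M →ₗ[E] N}
    (h : ∀ x, i (T x) = U (i x)) {ν : E} {x : M} (hx : x ∈ T.maxGenEigenspace ν) :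
    i x ∈ U.maxGenEigenspace ν := by
  rw [Module.End.mem_maxGenEigenspace] at hx ⊢
  obtain ⟨k, hk⟩ := hx
  exact ⟨k, by rw [← pow_comm h, hk, map_zero]⟩

theorem mem_gen_map [IsAlgClosed E] [FiniteDimensional E M] {T : Module.End E M}
    {U : Module.End E N} {i : M →ₗ[E] N} (h : ∀ x, i (T x) = U (i x)) (x : M) :
    i x ∈ ⨆ ν : E, U.maxGenEigenspace ν := by
  have h1 : (⊤ : Submodule E M).map i ≤ ⨆ ν : E, U.maxGenEigenspace ν := by
    rw [← Module.End.iSup_maxGenEigenspace_eq_top T, Submodule.map_iSup]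
    refine iSup_mono fun ν => ?_
    rintro _ ⟨y, hy, rfl⟩
    exact gen_map h hy
  exact h1 ⟨x, trivial, rfl⟩

end Lin

section Alg

variable {A : Type u} [AddCommGroup A] [Module E A] {F : Module.End E A} {μ : E} {v w : A}

/-- `symMap` as an endomorphism -/
noncomputable def symEnd (F : Module.End E A) : Module.End E (SymmetricAlgebra E A) :=
  (symMap F).toLinearMap

theorem symEnd_apply (F : Module.End E A) (x : SymmetricAlgebra E A) : symEnd F x = symMap F x := rfl

theorem gen_v (hv : F v = μ • v) {κ : E} {y : SymmetricAlgebra E A}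
    (hy : y ∈ (symEnd F).maxGenEigenspace κ) :
    SymmetricAlgebra.ι E A v * y ∈ (symEnd F).maxGenEigenspace (μ * κ) := by
  rw [Module.End.mem_maxGenEigenspace] at hy ⊢
  obtain ⟨k, hk⟩ := hy
  have h : ∀ (k : ℕ) (z : SymmetricAlgebra E A),
      ((symEnd F - (μ * κ) • (1 : Module.End E (SymmetricAlgebra E A))) ^ k)
        (SymmetricAlgebra.ι E A v * z) = μ ^ k • (SymmetricAlgebra.ι E A v *
          ((symEnd F - κ • (1 : Module.End E (SymmetricAlgebra E A))) ^ k) z) := by
    intro k
    induction k with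
    | zero => intro z; simp
    | succ k ih =>
      intro z
      have h1 : (symEnd F - (μ * κ) • (1 : Module.End E (SymmetricAlgebra E A)))
          (SymmetricAlgebra.ι E A v * z) = μ • (SymmetricAlgebra.ι E A v *
            (symEnd F - κ • (1 : Module.End E (SymmetricAlgebra E A))) z) := by
        simp only [LinearMap.sub_apply, LinearMap.smul_apply, Module.End.one_apply,
          symEnd_apply, map_mul, symMap_ι, hv, map_smul]
        rw [mul_sub, smul_sub, smul_mul_assoc, mul_smul_comm, smul_smul]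
      rw [pow_succ, Module.End.mul_apply, h1, map_smul, ih, smul_smul, ← pow_succ', pow_succ
        (symEnd F - κ • (1 : Module.End E (SymmetricAlgebra E A))), Module.End.mul_apply]
  exact ⟨k, by rw [h, hk, mul_zero, smul_zero]⟩

theorem gen_w (hv : F v = μ • v) (hw : F w = μ • w + v) {κ : E} {y : SymmetricAlgebra E A}
    (hy : y ∈ (symEnd F).maxGenEigenspace κ) :
    SymmetricAlgebra.ι E A w * y ∈ (symEnd F).maxGenEigenspace (μ * κ) := by
  obtain ⟨k, hk⟩ := Module.End.mem_maxGenEigenspace _ _ _ |>.1 hy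
  induction k generalizing y with
  | zero =>
    have h0 : y = 0 := by simpa using hk
    rw [h0, mul_zero]
    exact Submodule.zero_mem _
  | succ k ih =>
    set y' := (symEnd F - κ • (1 : Module.End E (SymmetricAlgebra E A))) y with hy'
    have hk' : ((symEnd F - κ • (1 : Module.End E (SymmetricAlgebra E A))) ^ k) y' = 0 := by
      rw [hy', ← Module.End.mul_apply, ← pow_succ]
      exact hk
    have h1 := ih ((Module.End.mem_maxGenEigenspace _ _ _).2 ⟨k, hk'⟩) hk'
    have h2 : symEnd F y ∈ (symEnd F).maxGenEigenspace κ :=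
      gen_map (i := symEnd F) (fun _ => rfl) hy
    have h3 : (symEnd F - (μ * κ) • (1 : Module.End E (SymmetricAlgebra E A)))
        (SymmetricAlgebra.ι E A w * y) = μ • (SymmetricAlgebra.ι E A w * y') +
          SymmetricAlgebra.ι E A v * symEnd F y := by
      rw [hy']
      simp only [LinearMap.sub_apply, LinearMap.smul_apply, Module.End.one_apply,
        symEnd_apply, map_mul, symMap_ι, hw, map_smul, map_add]
      rw [mul_sub, smul_sub, add_mul, smul_mul_assoc, mul_smul_comm, smul_smul]
      abel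
    have h4 : (symEnd F - (μ * κ) • (1 : Module.End E (SymmetricAlgebra E A)))
        (SymmetricAlgebra.ι E A w * y) ∈ (symEnd F).maxGenEigenspace (μ * κ) := by
      rw [h3]
      exact Submodule.add_mem _ (Submodule.smul_mem _ _ h1) (gen_v hv h2)
    obtain ⟨j, hj⟩ := (Module.End.mem_maxGenEigenspace _ _ _).1 h4
    exact (Module.End.mem_maxGenEigenspace _ _ _).2 ⟨j + 1, by
      rw [pow_succ, Module.End.mul_apply, hj]⟩

theorem eq_zero_of_ss [CharZero E] (hF : Function.Bijective F) (hμ : μ ≠ 0) (hv0 : v ≠ 0)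
    (hv : F v = μ • v) (hw : F w = μ • w + v) {p q : SymmetricAlgebra E A}
    (hp : p ∈ ss (symEnd F))
    (hq : q ∈ ⨆ κ : E, (symEnd F).maxGenEigenspace κ)
    (hpq : p = SymmetricAlgebra.ι E A w * q) : p = 0 := by
  classical
  obtain ⟨f, hf, hfp⟩ := (Submodule.mem_iSup_iff_exists_finsupp _ _).1 hp
  obtain ⟨g, hg, hgq⟩ := (Submodule.mem_iSup_iff_exists_finsupp _ _).1 hq
  set s : Finset E := f.support ∪ g.support.image (fun κ => μ * κ) with hs
  have h1 : ∑ ν ∈ s, f ν = p := by
    rw [← hfp]
    refine (Finset.sum_subset Finset.subset_union_left fun ν _ hν => ?_).symm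
    exact Finsupp.notMem_support_iff.1 hν
  have h2 : ∑ ν ∈ s, g (μ⁻¹ * ν) = q := by
    rw [← Finset.sum_image (f := fun κ => g κ) (g := fun ν => μ⁻¹ * ν) (s := s)
      (fun a _ b _ hab => mul_left_cancel₀ (inv_ne_zero hμ) hab), ← hgq]
    refine (Finset.sum_subset (fun κ hκ => ?_) fun ν _ hν => ?_).symm
    · rw [Finset.mem_image]
      refine ⟨μ * κ, ?_, ?_⟩
      · rw [hs, Finset.mem_union]
        exact Or.inr (Finset.mem_image_of_mem _ hκ)
      · rw [inv_mul_cancel_left₀ hμ]
    · exact Finsupp.notMem_support_iff.1 hν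
  have h3 := (iSupIndep_iff_finsetSum_eq_zero_imp_eq_zero _).1
    (Module.End.independent_maxGenEigenspace (symEnd F)) s
    (fun ν => SymmetricAlgebra.ι E A w * g (μ⁻¹ * ν) - f ν) (fun ν _ => by
      refine Submodule.sub_mem _ ?_ ?_
      · have h4 := gen_w hv hw (hg (μ⁻¹ * ν))
        rwa [mul_inv_cancel_left₀ hμ] at h4
      · exact (Module.End.genEigenspace _ ν).mono le_top (hf ν)) (by
      rw [Finset.sum_sub_distrib, ← Finset.mul_sum, h1, h2, hpq, sub_self])
  rw [← h1]
  refine Finset.sum_eq_zero fun ν hν => ?_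
  have h4 : f ν = SymmetricAlgebra.ι E A w * g (μ⁻¹ * ν) := (sub_eq_zero.1 (h3 ν hν)).symm
  have h5 : symMap F (f ν) = ν • f ν := Module.End.mem_eigenspace_iff.1 (hf ν)
  by_cases hν0 : ν = 0
  · rw [hν0, zero_smul] at h5
    rw [hν0]
    exact symMap_injective hF (by rw [h5, map_zero])
  · exact eq_zero_of_dvd hμ hv0 hv hw hν0 h5 h4

end Alg

/-- the eigenvectors in a symmetric power -/
theorem eigen_symPow [IsAlgClosed E] [CharZero E] (A : FSpace.{u, u} E) (h : ¬ A.Semisimple) (m : ℕ) :
    (symPow A (m + 1)).eigen + (symPow A m).dim ≤ (symPow A (m + 1)).dim := by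
  obtain ⟨μ, w, hv, hv0⟩ := exists_jordan A.F h
  set v := A.F w - μ • w with hvdef
  have hw : A.F w = μ • w + v := by rw [hvdef]; abel
  have hμ : μ ≠ 0 := by
    rintro rfl
    rw [zero_smul] at hv
    exact hv0 (A.bij.1 (by rw [hv, map_zero]))
  have hw0 : w ≠ 0 := by
    intro h0
    apply hv0
    rw [hvdef, h0, map_zero, smul_zero, sub_zero]
  set L : SymPow E A.X m →ₗ[E] SymPow E A.X (m + 1) :=
    ((LinearMap.mulLeft E (SymmetricAlgebra.ι E A.X w)).comp (SymPow E A.X m).subtype).codRestrict _
      (fun q => by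
        change SymmetricAlgebra.ι E A.X w * (q : SymmetricAlgebra E A.X) ∈ _
        unfold SymPow
        rw [pow_succ']
        exact Submodule.mul_mem_mul ⟨w, rfl⟩ q.2) with hL
  have hLinj : Function.Injective L := by
    intro a b hab
    apply Subtype.ext
    have h1 : SymmetricAlgebra.ι E A.X w * (a : SymmetricAlgebra E A.X) =
        SymmetricAlgebra.ι E A.X w * (b : SymmetricAlgebra E A.X) := congrArg Subtype.val hab
    exact mul_left_cancel₀ (ι_ne_zero hw0) h1
  have hdis : Disjoint (ss (symPow A (m + 1)).F) (LinearMap.range L) := by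
    rw [Submodule.disjoint_def]
    rintro x hx ⟨q, rfl⟩
    apply Subtype.ext
    refine eq_zero_of_ss (p := (L q : SymmetricAlgebra E A.X)) (q := (q : SymmetricAlgebra E A.X))
      A.bij hμ hv0 hv hw ?_ ?_ rfl
    · exact ss_map (i := (SymPow E A.X (m + 1)).subtype) (fun _ => rfl) hx
    · exact mem_gen_map (T := (symPow A m).F) (i := (SymPow E A.X m).subtype) (fun _ => rfl) q
  have h1 := Submodule.finrank_add_finrank_le_of_disjoint hdis
  have h2 : finrank E (LinearMap.range L) = finrank E (SymPow E A.X m) :=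
    LinearMap.finrank_range_of_inj hLinj
  exact (Nat.add_le_add_left (le_of_eq h2.symm) _).trans h1

end Pool.Agent.Run7.h604.SY
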